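import Pool.Agent.U569.APL.MonoG
import Pool.Agent.Results.MP_46885d_ag.ConstantPoints

/-!
# Constant points for the tuples of monomials near almost all members of families formed from arbitrary sets

Let `I 1, …, I s` be nonempty sets of variables among `x_0, …, x_n`, and `r = ∑ (|I i| - 1)` (`fdim I`). The tuples of monomials
`a 1, …, a s` of degree `d`, `a i` in the variables from `I i`, are given by `r + 1` coordinates: the degree `d`, and the exponents in
`a i` of all the variables from `I i` but one. The starting result `ConstantPoints` says that the proportion of the tuples of
degree `d` with the property `Good` below tends to `1` for `d → ∞`. Here: for all `ε > 0`, all large moduli `q` and all families of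
vectors of `r + 1` residues modulo `q` with small Fourier coefficients (only finitely many of them need to be small,
`SmallCoefficients L η`, where `L` and `η` depend on `ε` and on the `I i` only), and for all but at most `ε |S|` members
`v = c + y` of the family `S`, the property `Good` holds for ALL tuples of monomials of all degrees whose coordinates are at a
distance of at most `κ |v 0|` from those of `v` (`v 0` stands for the degree), where `κ > 0` depends on `ε` and on the `I i` only:
a cube of positive relative size around the member (`NearMost`).

Examples (`FlatExamples`), with Fourier coefficients at most `P ^ (-δ / 8)` modulo a large prime `P`: the values of bilinear maps on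
ARBITRARY sets, all products of elements of two ARBITRARY sets in the field of `P ^ (r + 1)` elements, both plus arbitrary functions
of the one and of the other element, polynomials on products of ARBITRARY sets, polynomials on subgroups.

`Good`: the points over function fields `K` of curves, of all the projective varieties given by linear combinations, with coefficients
in `K`, of the monomials and of the `x_j ^ d`, where the genus of `K` and the heights of the coefficients are bounded, are points
over the field of constants, apart from those on certain rational curves.

Proof: the tuples are good if certain determinants, which are affine in each of the free exponents, are not small. The number of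
the points of a grid where these functions are small is bounded in `Pool/Agent/U449/BV/PW.lean` (helper449), and each small cube
contains few members of the family (`Pool/Agent/U569/APL/Box.lean`, `Mono.lean`, `MonoT.lean`).
-/

set_option autoImplicit false

namespace Pool.Agent.Results.MP_46885d_ag.ArbitrarySets

open FF MvPolynomial Pool.Agent.W602.GT Pool.Agent.W603.LV Pool.Agent.W603.PV Pool.Agent.R869.Wd
open Pool.Agent.Results.MP_46885d_ag.ConstantPoints (OnOrbit ConstantPoints)
open Pool.Agent.U569.APL (NearMost FlatExamples nearMost_wide flatExamples)

/-- The property of the starting result: for all function fields `K` of curves over algebraically closed fields `k` of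
characteristic zero with `2 g - 2 ≤ h` and all systems `G` of linear combinations of the monomials `a i` and of the `x_j ^ d` with
coefficients in `K`, the sum of the heights of which is at most `h`, all points of `X = {G = 0}` over `K` outside of the rational
curves given by diagonal one-parameter groups are points over `k`, and the closure of these points, or of those outside of a
larger set, is defined over `k` (`ConstantPoints`). -/
def Good (h : ℕ) {n s : ℕ} (d : ℕ) (a : Fin s → (Fin (n + 1) →₀ ℕ)) : Prop :=
  ∀ (k K : Type) [Field k] [IsAlgClosed k] [CharZero k] [Field K] [Algebra k K] [IsFF k K],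
    canDeg k K ≤ h → ∀ (m : ℕ) (G : Fin m → MvPolynomial (Fin (n + 1)) K) (C : Finset K),
    (∀ e, (G e).support ⊆ withPowers d a ∧ ∀ α ∈ (G e).support, (G e).coeff α ∈ C) →
    ∑ c ∈ C, hgt k c ≤ h → ConstantPoints k G

theorem good_of_wide {n s : ℕ} (I : Fin s → Finset (Fin (n + 1))) (h : ℕ) (d : ℕ) (a : Fin s → (Fin (n + 1) →₀ ℕ))
    (ha : a ∈ TuplesIn I d) (hw : WideT ∅ (fun _ : Unit => withPowers d a) ((s + (n + 1)) * (n * Pool.Agent.R869.tri
      ((s + (n + 1)) - 1)) + 1 + (cstC n (s + (n + 1)) * (1 + h) + (2 * cstC n (s + (n + 1)) + 4 * n) * h))) : Good h d a := by
  classical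
  set s' := s + (n + 1) with hs'
  set N := s' * (n * Pool.Agent.R869.tri (s' - 1)) + 1 +
    (cstC n s' * (1 + h) + (2 * cstC n s' + 4 * n) * h) with hN
  have hg : Pool.Agent.R869.Wd.Good (withPowers d a) s' N :=
    { deg := ⟨d, deg_withPowers fun i => (ha i).2⟩
      pos := by omega
      card := card_withPowers d a
      wide := hw
      num := by omega }
  intro k K _ _ _ _ _ _ hK m G C hGC hC
  have hconst : ∀ f, PtL ∅ G K f → OnOrbit G f ∨ ConstPt k f := by
    intro f hf
    by_cases hp : Parts G f
    · left
      obtain ⟨b, i, i', hi, hi', hb, hw⟩ := hp
      refine ⟨b, ⟨i, i', hi, hi', hb⟩, fun t ht => ⟨?_, fun j hj =>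
        absurd hj (Set.notMem_empty j), fun e => ?_⟩⟩
      · intro h0
        exact mul_ne_zero (zpow_ne_zero _ ht) ((map_ne_zero _).2 hi) (congrFun h0 i)
      · refine val_orbit (L := AlgebraicClosure K) (fun j => algebraMap K (AlgebraicClosure K) (f j))
          b ht (G e) fun v => ?_
        have h1 := MvPolynomial.aeval_algebraMap_apply (AlgebraicClosure K) f (wc b v (G e))
        have h2 := hw e v
        unfold val at h2 ⊢
        rw [h2, map_zero] at h1
        exact h1
    · right
      refine hg.const (fun e => (hGC e).1) (C := C) (fun e => (hGC e).2) ?_ hf hp
      have h0 : 0 ≤ ∑ c ∈ C, hgt k c := Finset.sum_nonneg fun _ _ => hgt_nonneg _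
      have h1 : max (canDeg k K) 0 ≤ h := max_le hK (Nat.cast_nonneg _)
      have h2 : (cstC n s' : ℤ) * (1 + max (canDeg k K) 0) ≤ cstC n s' * (1 + h) :=
        mul_le_mul_of_nonneg_left (by linarith) (Nat.cast_nonneg _)
      have h3 : (2 * cstC n s' + 4 * n : ℤ) * ∑ c ∈ C, hgt k c ≤ (2 * cstC n s' + 4 * n) * h :=
        mul_le_mul_of_nonneg_left hC (by positivity)
      rw [hN]
      push_cast
      have h4 : (0 : ℤ) ≤ s' * (n * Pool.Agent.R869.tri (s' - 1)) := by positivity
      linarith
  refine ⟨hconst, fun E hE H hH h0 => ?_⟩
  have h1 := span_of_const (k := k) {f | PtL ∅ G K f ∧ f ∉ E} (fun f hf =>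
    (hconst f hf.1).resolve_left fun ho => hf.2 (hE f hf.1 ho)) H hH fun f hf => h0 f hf.1 hf.2
  refine Submodule.span_mono ?_ h1
  rintro P ⟨H0, h2, h3, rfl⟩
  exact ⟨H0, h2, fun f hf hfE => h3 f ⟨hf, hfE⟩, rfl⟩

/-- **Theorem.** For all sets `I i` of variables and all `h` the property `Good h` holds for ALL tuples of monomials near almost
all members of the families with small Fourier coefficients (`NearMost`); for all `R`, families of vectors of `R` residues with
Fourier coefficients at most `q ^ (-κ)` have this property for all large `q`, and the families formed from arbitrary sets are such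
families (`FlatExamples`). -/
theorem result : (∀ (n s : ℕ) (I : Fin s → Finset (Fin (n + 1))) (h : ℕ), NearMost I (Good h)) ∧ ∀ R : ℕ, FlatExamples R :=
  ⟨fun _ _ I h => nearMost_wide _ fun d a ha hw => good_of_wide I h d a ha hw, flatExamples⟩

end Pool.Agent.Results.MP_46885d_ag.ArbitrarySets
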